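import Mathlib

/-!
# Products of rational maps of the Riemann sphere and positive closed currents

Definitions for MP_75a732_an (Ueda maps and products), helper83.
-/

set_option autoImplicit false

open Polynomial MeasureTheory Filter Topology
open scoped OnePoint ComplexConjugate ComplexOrder Laplacian

namespace Pool.Agent.H83.UE

/-- A rational map `P / Q` of degree `d` of the Riemann sphere. -/
structure RatMap (d : ℕ) where
  P : ℂ[X]
  Q : ℂ[X]
  degP : P.natDegree ≤ d
  degQ : Q.natDegree ≤ d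
  deg : P.natDegree = d ∨ Q.natDegree = d
  coprime : IsCoprime P Q

/-- Homogeneous substitution of degree `d`: `∑ a_i U^i V^(d-i)`. -/
noncomputable def hsub (d : ℕ) (A U V : ℂ[X]) : ℂ[X] :=
  ∑ i ∈ Finset.range (d + 1), C (A.coeff i) * U ^ i * V ^ (d - i)

namespace RatMap

variable {d : ℕ}

/-- The rational map as a self-map of the Riemann sphere. -/
noncomputable def toFun (g : RatMap d) (x : OnePoint ℂ) : OnePoint ℂ :=
  Option.elim x
    (if g.Q.coeff d = 0 then ∞ else ((g.P.coeff d / g.Q.coeff d : ℂ) : OnePoint ℂ))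
    (fun y => if g.Q.eval y = 0 then ∞ else ((g.P.eval y / g.Q.eval y : ℂ) : OnePoint ℂ))

/-- There is no exceptional point: no finite nonempty set is equal to its full preimage. -/
def NoExc (g : RatMap d) : Prop :=
  ∀ E : Set (OnePoint ℂ), E.Finite → E.Nonempty → g.toFun ⁻¹' E ≠ E

/-- Numerator and denominator of the `n`-th iterate. -/
noncomputable def it (g : RatMap d) : ℕ → ℂ[X] × ℂ[X]
  | 0 => (X, 1)
  | n + 1 => (hsub d g.P (g.it n).1 (g.it n).2, hsub d g.Q (g.it n).1 (g.it n).2)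

/-- The polynomial whose roots are the finite preimages of `z` under the `n`-th iterate. -/
noncomputable def fib (g : RatMap d) (n : ℕ) (z : ℂ) : ℂ[X] := (g.it n).1 - C z * (g.it n).2

/-- The derivative of the `n`-th iterate. -/
noncomputable def der (g : RatMap d) (n : ℕ) (x : ℂ) : ℂ :=
  deriv (fun y => (g.it n).1.eval y / (g.it n).2.eval y) x

/-- `G` is the Green potential `x ↦ lim d⁻ⁿ log ‖(P_n(x), Q_n(x))‖`. -/
def IsGreenPotential (g : RatMap d) (G : ℂ → ℝ) : Prop :=
  ∀ x, Tendsto (fun n : ℕ => ((d : ℝ) ^ n)⁻¹ *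
    Real.log (max ‖(g.it n).1.eval x‖ ‖(g.it n).2.eval x‖)) atTop (𝓝 (G x))

/-- `μ` is the Green measure `dd^c G` (a probability measure, the equilibrium measure). -/
def IsGreenMeasure (g : RatMap d) (μ : Measure ℂ) : Prop :=
  IsProbabilityMeasure μ ∧ ∃ G : ℂ → ℝ, Continuous G ∧ g.IsGreenPotential G ∧
    ∀ u : ℂ → ℝ, ContDiff ℝ 2 u → HasCompactSupport u →
      ∫ x, u x ∂μ = (2 * Real.pi)⁻¹ * ∫ x, G x * (Δ u) x

end RatMap

/-- The index sets of cardinality `m`. -/
abbrev Idx (k m : ℕ) := {I : Finset (Fin k) // I.card = m}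

/-- A positive closed current of bidimension `(m, m)` on `(ℙ¹)^k` without mass on the divisors
at infinity, in the coordinates of `ℂ^k`: a positive semidefinite matrix `(S_IJ) = h σ` of
measures such that the image of `S_JJ` in `ℂ^J` is `c_J` times Lebesgue measure. -/
structure Current (k m : ℕ) where
  σ : Measure (Fin k → ℂ)
  h : (Fin k → ℂ) → Matrix (Idx k m) (Idx k m) ℂ
  meas : ∀ I J, Measurable fun z => h z I J
  psd : ∀ z, (h z).PosSemidef
  c : Idx k m → NNReal
  marg : ∀ J : Idx k m,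
    (σ.withDensity fun z => ENNReal.ofReal (h z J J).re).map
      (fun z (j : {j // j ∈ J.1}) => z j.1) = (c J : ENNReal) • volume

/-- The sum of `φ` over the fibre of `z` under `G^n = g_1^n × ... × g_k^n`, with multiplicities. -/
noncomputable def fibSum {k d : ℕ} (g : Fin k → RatMap d) (n : ℕ) (φ : (Fin k → ℂ) → ℂ)
    (z : Fin k → ℂ) : ℂ :=
  ∑ x ∈ Fintype.piFinset fun l => ((g l).fib n (z l)).roots.toFinset,
    (∏ l, (((g l).fib n (z l)).rootMultiplicity (x l) : ℂ)) * φ x

/-- The coefficient of the direct image of `χ dz_I ∧ dz̄_J` under `G^n`. -/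
noncomputable def pushCoeff {k m d : ℕ} (g : Fin k → RatMap d) (n : ℕ) (I J : Idx k m)
    (χ : (Fin k → ℂ) → ℂ) (z : Fin k → ℂ) : ℂ :=
  fibSum g n (fun x => χ x / ((∏ i ∈ I.1, (g i).der n (x i)) *
    conj (∏ j ∈ J.1, (g j).der n (x j)))) z

/-- The pairing of `d^(-pn) (G^n)^* S`, `p = k - m`, with `χ dz_I ∧ dz̄_J`. -/
noncomputable def pairing {k m d : ℕ} (g : Fin k → RatMap d) (n : ℕ) (S : Current k m)
    (I J : Idx k m) (χ : (Fin k → ℂ) → ℂ) : ℂ :=
  ((d : ℂ) ^ ((k - m) * n))⁻¹ * ∫ z, pushCoeff g n I J χ z * S.h z I J ∂S.σ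

/-- The product measure with factors `μ_l`, `l ∉ J`, and Lebesgue measure for `l ∈ J`. -/
noncomputable def limMeas {k m : ℕ} (μ : Fin k → Measure ℂ) (J : Idx k m) :
    Measure (Fin k → ℂ) :=
  Measure.pi fun l => if l ∈ J.1 then (volume : Measure ℂ) else μ l

end Pool.Agent.H83.UE
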