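import Pool.Agent.H83.UE.Defs

/-!
# Ueda maps of projective space

The affine chart `ℂ^k` of `ℙ^k`: monic polynomials of degree `k` (binary forms), given by their
coefficients below the leading one.  MP_75a732_an, helper83.
-/

set_option autoImplicit false

open Polynomial MeasureTheory Filter Topology
open scoped OnePoint ComplexConjugate ComplexOrder Laplacian Nat

namespace Pool.Agent.H83.UE

/-- The coefficients of `∏ (X - z_l)`: the quotient map `(ℙ¹)^k → ℙ^k` by the symmetric group. -/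
noncomputable def coef {k : ℕ} (z : Fin k → ℂ) (i : Fin k) : ℂ := (∏ l, (X - C (z l))).coeff i

/-- The monic polynomial with coefficient vector `w`. -/
noncomputable def mon {k : ℕ} (w : Fin k → ℂ) : ℂ[X] := X ^ k + ∑ i : Fin k, C (w i) * X ^ (i : ℕ)

/-- The value of the `n`-th iterate of `g`. -/
noncomputable def RatMap.val {d : ℕ} (g : RatMap d) (n : ℕ) (x : ℂ) : ℂ :=
  (g.it n).1.eval x / (g.it n).2.eval x

/-- `w` and its image under the `n`-th iterate of the Ueda map lie in the chart: no root of `w`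
is a pole of the `n`-th iterate of `g`. -/
def Reg {k d : ℕ} (g : RatMap d) (n : ℕ) (w : Fin k → ℂ) : Prop :=
  ∀ x ∈ (mon w).roots, (g.it n).2.eval x ≠ 0

/-- The `n`-th iterate of the Ueda map `Sym^k g`: the roots are replaced by their images. -/
noncomputable def ueda {k d : ℕ} (g : RatMap d) (n : ℕ) (w : Fin k → ℂ) (i : Fin k) : ℂ :=
  (((mon w).roots.map fun x => X - C (g.val n x)).prod).coeff i

/-- The product of the factorials of the multiplicities. -/
noncomputable def stab (s : Multiset ℂ) : ℕ := ∏ x ∈ s.toFinset, (s.count x)!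

/-- The local degree at `w` of the `n`-th iterate of the Ueda map. -/
noncomputable def udeg {k d : ℕ} (g : RatMap d) (n : ℕ) (w : Fin k → ℂ) : ℂ :=
  (stab ((mon w).roots.map (g.val n)) : ℂ) / stab (mon w).roots *
    ((mon w).roots.map fun x => ((g.fib n (g.val n x)).rootMultiplicity x : ℂ)).prod

/-- The current `(f^n)^*[V]`, `f` the Ueda map, applied to `χ L^*vol`, `L : ℂ^k → ℂ^m` linear:
the integral over `y` of the sum of `χ` over the points of `f^(-n)(V)` with `L w = y`, counted with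
the local degrees of `f^n`. -/
noncomputable def slice {k m d : ℕ} (g : RatMap d) (n : ℕ) (V : Set (Fin k → ℂ))
    (L : (Fin k → ℂ) →ₗ[ℂ] (Fin m → ℂ)) (χ : (Fin k → ℂ) → ℂ) : ℂ :=
  ∫ y : Fin m → ℂ, ∑ᶠ w ∈ {w | Reg g n w ∧ ueda g n w ∈ V ∧ L w = y}, udeg g n w * χ w

/-- The minor of the Jacobian matrix of `Φ : ℂ^k → ℂ^m` with columns in `J`. -/
noncomputable def minor {k m : ℕ} (Φ : (Fin k → ℂ) → (Fin m → ℂ)) (J : Idx k m)
    (z : Fin k → ℂ) : ℂ :=
  Matrix.det (Matrix.of fun i j : Fin m =>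
    fderiv ℂ Φ z (Pi.single (J.1.orderEmbOfFin J.2 j) 1) i)

/-- `V` (a part of the chart `ℂ^k` of `ℙ^k`) has pure dimension `m` and degree `δ`: the set of the
root tuples of its points is covered, up to a set of `2m`-dimensional Hausdorff measure zero, by
injective holomorphic pieces with disjoint images, and for almost all `ζ` it has `δ` common points
with the linear space of the polynomials which vanish at `ζ_1, ..., ζ_m`. -/
structure IsCycle {k : ℕ} (m : ℕ) (V : Set (Fin k → ℂ)) (δ : ℕ) : Prop where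
  pieces : ∃ (c : ℕ → Fin m → ℂ) (r : ℕ → ℝ) (S : ℕ → Set (Fin m → ℂ))
    (ψ : ℕ → (Fin m → ℂ) → (Fin k → ℂ)),
    (∀ a, MeasurableSet (S a) ∧ S a ⊆ Metric.ball (c a) (r a) ∧
      DifferentiableOn ℂ (ψ a) (Metric.ball (c a) (r a)) ∧ Set.InjOn (ψ a) (S a) ∧
      ψ a '' S a ⊆ coef ⁻¹' V) ∧
    (Pairwise fun a b => Disjoint (ψ a '' S a) (ψ b '' S b)) ∧
    Measure.hausdorffMeasure (2 * m : ℝ) (coef ⁻¹' V \ ⋃ a, ψ a '' S a) = 0
  degree : ∀ᵐ ζ : Fin m → ℂ, {w | w ∈ V ∧ ∀ j, (mon w).IsRoot (ζ j)}.Finite ∧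
    ∑ᶠ w ∈ {w | w ∈ V ∧ ∀ j, (mon w).IsRoot (ζ j)}, ∏ j, (mon w).rootMultiplicity (ζ j) = δ

/-- The current `T^p`, `p = k - m`, of the Ueda map applied to `χ L^*vol`; the inverse image of
`T` under `coef` is `∑_l μ(z_l)`. -/
noncomputable def greenSlice {k m : ℕ} (μ : Measure ℂ) (L : (Fin k → ℂ) →ₗ[ℂ] (Fin m → ℂ))
    (χ : (Fin k → ℂ) → ℂ) : ℂ :=
  ((k - m)! : ℂ) / k ! * ∑ J : Idx k m, ∫ z, χ (coef z) *
    (‖minor (fun x => L (coef x)) J z‖ ^ 2 : ℝ) ∂(limMeas (fun _ => μ) J)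

end Pool.Agent.H83.UE
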