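import Pool.Agent.H83.UE.Defs2

/-!
# Exceptional points and generic algebraic sets (Ueda maps of `ℙ^k`), MP_75a732_an, helper83
-/

set_option autoImplicit false

open Polynomial MeasureTheory Filter Topology
open scoped OnePoint ComplexConjugate ComplexOrder Laplacian Nat

namespace Pool.Agent.H83.UE

/-- The exceptional points of `g`: the points of the finite sets `E` with `g⁻¹(E) = E`. -/
def RatMap.Exc {d : ℕ} (g : RatMap d) : Set (OnePoint ℂ) :=
  {e | ∃ E : Set (OnePoint ℂ), E.Finite ∧ e ∈ E ∧ g.toFun ⁻¹' E = E}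

/-- The binary form of degree `k` with coefficient vector `a`, as a polynomial. -/
noncomputable def pol {k : ℕ} (a : Fin (k + 1) → ℂ) : ℂ[X] :=
  ∑ i : Fin (k + 1), C (a i) * X ^ (i : ℕ)

/-- The linear form which vanishes at `e`. -/
noncomputable def lin (e : OnePoint ℂ) : ℂ[X] := Option.elim e 1 (fun a => X - C a)

/-- The linear subspace `L_e` of `ℙ^k`: the binary forms of degree `k` which are divisible by the
product of the linear forms vanishing at `e_1, ..., e_j`. -/
def Van {k j : ℕ} (e : Fin j → OnePoint ℂ) (a : Fin (k + 1) → ℂ) : Prop :=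
  ∃ b : ℂ[X], b.natDegree ≤ k - j ∧ pol a = (∏ i, lin (e i)) * b

/-- The part in the chart `ℂ^k` of the algebraic subset of `ℙ^k` given by the forms in `𝓕`. -/
def chart {k : ℕ} (𝓕 : Set (MvPolynomial (Fin (k + 1)) ℂ)) : Set (Fin k → ℂ) :=
  {w | ∀ F ∈ 𝓕, MvPolynomial.eval (Fin.snoc w 1 : Fin (k + 1) → ℂ) F = 0}

/-- The algebraic subset `V` of `ℙ^k`, `dim V = m`, given by `𝓕`, is generic for `Sym^k g`: for
all exceptional points `e_1, ..., e_j` of `g` the dimension of `V ∩ L_e` is at most `m - j`, that is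
some linear subspace of dimension `k - m + j - 1` of `ℙ^k` does not meet `V ∩ L_e`. -/
def Generic {k d : ℕ} (g : RatMap d) (m : ℕ) (𝓕 : Set (MvPolynomial (Fin (k + 1)) ℂ)) : Prop :=
  ∀ (j : ℕ) (e : Fin j → OnePoint ℂ), 1 ≤ j → j ≤ k → j ≤ m + 1 → (∀ i, e i ∈ g.Exc) →
    ∃ Λ : Submodule ℂ (Fin (k + 1) → ℂ), Module.finrank ℂ Λ = k - m + j ∧
      ∀ a ∈ Λ, (∀ F ∈ 𝓕, MvPolynomial.eval a F = 0) → Van e a → a = 0

end Pool.Agent.H83.UE
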