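import Pool.Agent.H83.UE.Defs3

/-!
# Generic algebraic sets, literal form, MP_75a732_an, helper83
-/

set_option autoImplicit false

open Polynomial MeasureTheory Filter Topology
open scoped OnePoint ComplexConjugate ComplexOrder Laplacian Nat

namespace Pool.Agent.H83.UE

/-- The algebraic subset `V` of `ℙ^k` given by the forms in `𝓕` has dimension at most `m` (`j = 0`)
and is generic for `Sym^k g`: for all exceptional points `e_1, ..., e_j` of `g` the dimension of
`V ∩ L_e` is at most `m - j`, that is some linear subspace of dimension `k - m + j - 1` of `ℙ^k`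
does not meet `V ∩ L_e`. -/
def GenericSet {k d : ℕ} (g : RatMap d) (m : ℕ) (𝓕 : Set (MvPolynomial (Fin (k + 1)) ℂ)) : Prop :=
  ∀ (j : ℕ) (e : Fin j → OnePoint ℂ), j ≤ k → j ≤ m + 1 → (∀ i, e i ∈ g.Exc) →
    ∃ Λ : Submodule ℂ (Fin (k + 1) → ℂ), Module.finrank ℂ Λ = k - m + j ∧
      ∀ a ∈ Λ, (∀ F ∈ 𝓕, MvPolynomial.eval a F = 0) → Van e a → a = 0

end Pool.Agent.H83.UE
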