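import Pool.Agent.H83.UE.Defs

/-!
# Targets for MP_75a732_an (board uda_modules), helper83
-/

set_option autoImplicit false

open Polynomial MeasureTheory Filter Topology Set
open scoped OnePoint ComplexConjugate ComplexOrder Laplacian ENNReal

namespace Pool.Agent.H83.UE

/-! ## Homogeneous coordinates -/

/-- `v ∧ w` in `ℂ²`. -/
def wd (v w : ℂ × ℂ) : ℂ := v.1 * w.2 - v.2 * w.1

/-- The chordal distance `|v ∧ w| / (‖v‖ ‖w‖)` (sup norms). -/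
noncomputable def cd (v w : ℂ × ℂ) : ℝ := ‖wd v w‖ / (‖v‖ * ‖w‖)

/-- The binary form of degree `D` with dehomogenisation `A`. -/
noncomputable def hev (D : ℕ) (A : ℂ[X]) (v : ℂ × ℂ) : ℂ :=
  ∑ i ∈ Finset.range (D + 1), A.coeff i * v.1 ^ i * v.2 ^ (D - i)

/-- The homogeneous lift. -/
noncomputable def RatMap.F {d : ℕ} (g : RatMap d) (v : ℂ × ℂ) : ℂ × ℂ := (hev d g.P v, hev d g.Q v)

/-- IT: the iterates are rational maps of degree `d^n` with lift `F^[n]`. -/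
def T_IT : Prop := ∀ (d : ℕ), 1 ≤ d → ∀ (g : RatMap d) (n : ℕ),
  (g.it n).1.natDegree ≤ d ^ n ∧ (g.it n).2.natDegree ≤ d ^ n ∧
  ((g.it n).1.natDegree = d ^ n ∨ (g.it n).2.natDegree = d ^ n) ∧
  IsCoprime (g.it n).1 (g.it n).2 ∧
  ∀ w : ℂ × ℂ, g.F^[n] w = (hev (d ^ n) (g.it n).1 w, hev (d ^ n) (g.it n).2 w)

/-- FN: the homogeneous lift is proper. -/
def T_FN : Prop := ∀ (d : ℕ), 1 ≤ d → ∀ (g : RatMap d), Continuous g.F ∧ ∃ C : ℝ, 1 ≤ C ∧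
  ∀ v : ℂ × ℂ, ‖v‖ ^ d / C ≤ ‖g.F v‖ ∧ ‖g.F v‖ ≤ C * ‖v‖ ^ d

/-- The bounds for the Green potential. -/
def GreenBd {d : ℕ} (g : RatMap d) (G : ℂ → ℝ) : Prop :=
  Continuous G ∧ g.IsGreenPotential G ∧
  (∃ C : ℝ, ∀ (n : ℕ) (x : ℂ), |((d : ℝ) ^ n)⁻¹ *
    Real.log (max ‖(g.it n).1.eval x‖ ‖(g.it n).2.eval x‖) - G x| ≤ C / (d : ℝ) ^ n) ∧
  ∃ L : ℝ, Tendsto (fun x : ℂ => G x - Real.log ‖x‖) (Bornology.cobounded ℂ) (𝓝 L)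

/-- GRN: the Green potential. -/
def T_GRN : Prop := ∀ (d : ℕ), 2 ≤ d → ∀ (g : RatMap d), ∃ G : ℂ → ℝ, GreenBd g G

/-- BF: factorisation of binary forms. -/
def T_BF : Prop := ∀ (D : ℕ) (A : ℂ[X]), A ≠ 0 → A.natDegree ≤ D →
  ∃ c : ℂ, c ≠ 0 ∧ ∃ x : Fin D → ℂ × ℂ, (∀ i, ‖x i‖ = 1) ∧ ∀ w, hev D A w = c * ∏ i, wd w (x i)

/-- No totally ramified value for the map `w ↦ (A(w), B(w))` of degree `D`. -/
def NTR (D : ℕ) (H : ℂ × ℂ → ℂ × ℂ) : Prop :=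
  ∀ z x : ℂ × ℂ, z ≠ 0 → x ≠ 0 → ∀ c : ℂ, ¬ ∀ w, wd (H w) z = c * wd w x ^ D

/-- NTR: without exceptional points the third iterate has no totally ramified value. -/
def T_NTR : Prop := ∀ (d : ℕ), 2 ≤ d → ∀ g : RatMap d, g.NoExc → NTR (d ^ 3) (g.F^[3])

/-- The Lojasiewicz property with exponent `E` and `D` centres. -/
def Loj (D E : ℕ) (H : ℂ × ℂ → ℂ × ℂ) : Prop :=
  ∃ c : ℝ, 0 < c ∧ ∀ z : ℂ × ℂ, z ≠ 0 → ∃ x : Fin D → ℂ × ℂ, (∀ i, x i ≠ 0) ∧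
    ∀ w : ℂ × ℂ, w ≠ 0 → ∃ i, c * cd w (x i) ^ E ≤ cd (H w) z

/-- LJ0: the trivial Lojasiewicz exponent. -/
def T_LJ0 : Prop := ∀ (D : ℕ) (A B : ℂ[X]), 1 ≤ D → A.natDegree ≤ D → B.natDegree ≤ D →
  (∀ w : ℂ × ℂ, w ≠ 0 → (hev D A w, hev D B w) ≠ (0 : ℂ × ℂ)) →
  (∀ z : ℂ × ℂ, z ≠ 0 → ∃ w, wd (hev D A w, hev D B w) z ≠ 0) →
  Loj D D (fun w => (hev D A w, hev D B w))

/-- LJ1: the improved exponent. -/
def T_LJ1 : Prop := ∀ (D : ℕ) (A B : ℂ[X]), 1 ≤ D → A.natDegree ≤ D → B.natDegree ≤ D →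
  (∀ w : ℂ × ℂ, w ≠ 0 → (hev D A w, hev D B w) ≠ (0 : ℂ × ℂ)) →
  (∀ z : ℂ × ℂ, z ≠ 0 → ∃ w, wd (hev D A w, hev D B w) z ≠ 0) →
  NTR D (fun w => (hev D A w, hev D B w)) →
  Loj D (D - 1) (fun w => (hev D A w, hev D B w))

/-- REC: the area recursion. -/
def T_REC : Prop := ∀ (D E : ℕ) (H : ℂ × ℂ → ℂ × ℂ), 2 ≤ E → 1 ≤ D → Continuous H →
  (∀ w, w ≠ 0 → H w ≠ 0) → Loj D E H → ∀ R : ℝ, ∃ C : ℝ, 0 ≤ C ∧ ∀ (j : ℕ) (z : ℂ × ℂ), z ≠ 0 →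
    ∫⁻ x in Metric.ball (0 : ℂ) R, ENNReal.ofReal |Real.log (cd (H^[j] (x, 1)) z)| ≤
      ENNReal.ofReal (C * (j + 1) * (E : ℝ) ^ j)

/-- Slow growth of the logarithmic integrals, with `κ < d`. -/
def Good {d : ℕ} (g : RatMap d) (κ : ℝ) : Prop :=
  1 ≤ κ ∧ κ < d ∧ ∀ R : ℝ, ∃ C : ℝ, 0 ≤ C ∧ ∀ (n : ℕ) (z : ℂ × ℂ), z ≠ 0 →
    ∫⁻ x in Metric.ball (0 : ℂ) R, ENNReal.ofReal |Real.log (cd (g.F^[n] (x, 1)) z)| ≤
      ENNReal.ofReal (C * κ ^ n)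

/-- LOG: rational maps without exceptional points are good. -/
def T_LOG : Prop := ∀ (d : ℕ), 2 ≤ d → ∀ g : RatMap d, g.NoExc → ∃ κ : ℝ, Good g κ

/-! ## Potentials and values of test functions on fibres -/

/-- The logarithmic potential. -/
noncomputable def pot (ρ : ℂ → ℂ) (x : ℂ) : ℂ := ∫ w, (Real.log ‖x - w‖ : ℂ) * ρ w

/-- The admissible densities. -/
def Dens (ρ : ℂ → ℂ) : Prop := Continuous ρ ∧ HasCompactSupport ρ ∧ ∫ w, ρ w = 0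

/-- `∂/∂z`. -/
noncomputable def dz (f : ℂ → ℂ) (z : ℂ) : ℂ :=
  (fderiv ℝ f z 1 - Complex.I * fderiv ℝ f z Complex.I) / 2

/-- `∂/∂z̄`. -/
noncomputable def dzb (f : ℂ → ℂ) (z : ℂ) : ℂ :=
  (fderiv ℝ f z 1 + Complex.I * fderiv ℝ f z Complex.I) / 2

/-- VN: sum of a potential over the roots. -/
def T_VN : Prop := ∀ (ρ : ℂ → ℂ), Dens ρ → ∀ A : ℂ[X], A ≠ 0 →
  Integrable (fun w => (Real.log ‖A.eval w‖ : ℂ) * ρ w) ∧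
  (A.roots.map (pot ρ)).sum = ∫ w, (Real.log ‖A.eval w‖ : ℂ) * ρ w

/-- UNI: uniform convergence of the normalised sums over fibres. -/
def T_UNI : Prop := ∀ (d : ℕ), 2 ≤ d → ∀ (g : RatMap d) (κ : ℝ), Good g κ → ∀ G : ℂ → ℝ,
  GreenBd g G → ∀ ρ : ℂ → ℂ, Dens ρ → ∃ C : ℝ, 0 ≤ C ∧ ∀ (n : ℕ) (z : ℂ),
    ‖((d : ℂ) ^ n)⁻¹ * ((g.fib n z).roots.map (pot ρ)).sum - ∫ w, (G w : ℂ) * ρ w‖ ≤
      C * (κ / d) ^ n

/-- The Laplacian of a complex valued function. -/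
noncomputable def lapC (u : ℂ → ℂ) (w : ℂ) : ℂ :=
  ((Δ fun x => (u x).re) w : ℂ) + Complex.I * ((Δ fun x => (u x).im) w : ℂ)

/-- The density whose potential is `u`. -/
noncomputable def dens (u : ℂ → ℂ) (w : ℂ) : ℂ := ((2 * Real.pi)⁻¹ : ℝ) * lapC u w

/-- RU: compactly supported `C²` functions are potentials. -/
def T_RU : Prop := ∀ u : ℂ → ℂ, ContDiff ℝ 2 u → HasCompactSupport u →
  Dens (dens u) ∧ pot (dens u) = u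

/-- CP: every compactly supported `C²` function is `∂/∂z` of a potential (Cauchy-Pompeiu). -/
def T_CP : Prop := ∀ χ : ℂ → ℂ, ContDiff ℝ 2 χ → HasCompactSupport χ →
  ∃ ρ : ℂ → ℂ, Dens ρ ∧ ContDiff ℝ 1 (pot ρ) ∧ (∀ z, dz (pot ρ) z = χ z) ∧
    (∃ B : ℝ, ∀ z, ‖pot ρ z‖ ≤ B / (1 + ‖z‖)) ∧
    ∫⁻ z, ‖fderiv ℝ (pot ρ) z‖ₑ ^ 2 < ⊤

/-- MU: the Green measure. -/
def T_MU : Prop := ∀ (d : ℕ), 2 ≤ d → ∀ (g : RatMap d) (κ : ℝ), Good g κ → ∀ G : ℂ → ℝ,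
  GreenBd g G → ∃ μ : Measure ℂ, IsProbabilityMeasure μ ∧
    ∀ u : ℂ → ℝ, ContDiff ℝ 2 u → HasCompactSupport u →
      ∫ x, u x ∂μ = (2 * Real.pi)⁻¹ * ∫ x, G x * (Δ u) x

/-! ## Fibres and areas -/

/-- SIM: all but finitely many fibres are simple. -/
def T_SIM : Prop := ∀ (D : ℕ) (P Q : ℂ[X]), 1 ≤ D → IsCoprime P Q → P.natDegree ≤ D →
  Q.natDegree ≤ D → (P.natDegree = D ∨ Q.natDegree = D) → ∃ E : Finset ℂ, ∀ z, z ∉ E →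
    (P - C z * Q).roots.Nodup ∧ Multiset.card (P - C z * Q).roots = D ∧
    ∀ x ∈ (P - C z * Q).roots, Q.eval x ≠ 0 ∧ deriv (fun y => P.eval y / Q.eval y) x ≠ 0

/-- ARE: the area formula. -/
def T_ARE : Prop := ∀ (P Q : ℂ[X]), IsCoprime P Q → (0 < P.natDegree ∨ 0 < Q.natDegree) →
  ∀ H : ℂ → ℝ≥0∞, Measurable H →
    ∫⁻ z, ∑ x ∈ (P - C z * Q).roots.toFinset, H x =
      ∫⁻ x, H x * ‖deriv (fun y => P.eval y / Q.eval y) x‖ₑ ^ 2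

/-- MEA: measurability of sums over fibres. -/
def T_MEA : Prop := ∀ (P Q : ℂ[X]), IsCoprime P Q → (0 < P.natDegree ∨ 0 < Q.natDegree) →
  (∀ H : ℂ → ℝ≥0∞, Measurable H → Measurable fun z => ((P - C z * Q).roots.map H).sum) ∧
  (∀ H : ℂ → ℂ, Measurable H → Measurable fun z => ((P - C z * Q).roots.map H).sum)

/-- CON: the contraction properties of the direct image. -/
def T_CON : Prop := ∀ (D : ℕ) (P Q : ℂ[X]), 1 ≤ D → IsCoprime P Q → P.natDegree ≤ D →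
  Q.natDegree ≤ D → (P.natDegree = D ∨ Q.natDegree = D) → ∀ H : ℂ → ℝ≥0∞, Measurable H →
    (∫⁻ z, ((P - C z * Q).roots.map fun x =>
      H x / ‖deriv (fun y => P.eval y / Q.eval y) x‖ₑ).sum ^ 2 ≤ D * ∫⁻ x, H x ^ 2) ∧
    (∫⁻ z, ((P - C z * Q).roots.map fun x =>
      H x / ‖deriv (fun y => P.eval y / Q.eval y) x‖ₑ ^ 2).sum ≤ ∫⁻ x, H x)

/-- INT: the integral of the direct image of an integrable `(1,1)`-form. -/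
def T_INT : Prop := ∀ (D : ℕ) (P Q : ℂ[X]), 1 ≤ D → IsCoprime P Q → P.natDegree ≤ D →
  Q.natDegree ≤ D → (P.natDegree = D ∨ Q.natDegree = D) → ∀ H : ℂ → ℂ, Integrable H →
    Integrable (fun z => ((P - C z * Q).roots.map fun x =>
      H x / (deriv (fun y => P.eval y / Q.eval y) x *
        conj (deriv (fun y => P.eval y / Q.eval y) x))).sum) ∧
    ∫ z, ((P - C z * Q).roots.map fun x =>
      H x / (deriv (fun y => P.eval y / Q.eval y) x *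
        conj (deriv (fun y => P.eval y / Q.eval y) x))).sum = ∫ x, H x

/-- DV: derivative of the sum over the fibre. -/
def T_DV : Prop := ∀ (D : ℕ) (P Q : ℂ[X]), 1 ≤ D → IsCoprime P Q → P.natDegree ≤ D →
  Q.natDegree ≤ D → (P.natDegree = D ∨ Q.natDegree = D) → ∀ z₀ : ℂ,
    (P - C z₀ * Q).roots.Nodup → Multiset.card (P - C z₀ * Q).roots = D →
    (∀ x ∈ (P - C z₀ * Q).roots, Q.eval x ≠ 0 ∧ deriv (fun y => P.eval y / Q.eval y) x ≠ 0) →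
    ∀ U : ℂ → ℂ, ContDiff ℝ 1 U → ∃ L : ℂ →L[ℝ] ℂ,
      HasFDerivAt (fun z => ((P - C z * Q).roots.map U).sum) L z₀ ∧
      ∀ ζ, L ζ = ((P - C z₀ * Q).roots.map fun x =>
        fderiv ℝ U x (ζ / deriv (fun y => P.eval y / Q.eval y) x)).sum

/-- IBP: integration by parts with a finite singular set. -/
def T_IBP : Prop := ∀ (χ V : ℂ → ℂ) (E : Finset ℂ) (B : ℝ), ContDiff ℝ 1 χ →
  HasCompactSupport χ → Measurable V → (∀ z, ‖V z‖ ≤ B) →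
  (∀ z, z ∉ E → DifferentiableAt ℝ V z) →
  (∀ R : ℝ, ∫⁻ z in Metric.ball (0 : ℂ) R, ‖fderiv ℝ V z‖ₑ < ⊤) → ∀ e : ℂ,
    ∫ z, χ z * fderiv ℝ V z e = - ∫ z, fderiv ℝ χ z e * V z

/-- BB: the direct image of `χ dz` tends to zero in `L²` after normalisation. -/
def T_BB : Prop := ∀ (d : ℕ), 2 ≤ d → ∀ (g : RatMap d) (κ : ℝ), Good g κ →
  ∀ χ : ℂ → ℂ, ContDiff ℝ 2 χ → HasCompactSupport χ → ∃ C : ℝ, 0 ≤ C ∧ ∀ n : ℕ,
    ∫⁻ z, ‖((g.fib n z).roots.map fun x => χ x / g.der n x).sum‖ₑ ^ 2 ≤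
      ENNReal.ofReal (C * κ ^ n)

/-! ## Currents -/

/-- MAR: integrals of products against `S_JJ`. -/
def T_MAR : Prop := ∀ (k m : ℕ) (S : Current k m) (J : Idx k m) (ρ : Fin k → ℂ → ℝ≥0∞),
  (∀ l, Measurable (ρ l)) →
    ∫⁻ z, (∏ j ∈ J.1, ρ j (z j)) * ENNReal.ofReal (S.h z J J).re ∂S.σ =
      S.c J * ∏ j ∈ J.1, ∫⁻ x, ρ j x

/-- CS: the Cauchy-Schwarz bound for the coefficients of a positive current. -/
def T_CS : Prop := ∀ (k m : ℕ) (S : Current k m) (I J : Idx k m) (A : Fin k → ℂ → ℝ≥0∞)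
  (B : Fin k → ℝ≥0∞), (∀ l, Measurable (A l)) → (∀ l x, l ∉ I.1 → l ∉ J.1 → A l x ≤ B l) →
    ∫⁻ z, (∏ l, A l (z l)) * ‖S.h z I J‖ₑ ∂S.σ ≤
      ((S.c I : ℝ≥0∞) * S.c J) ^ (1 / 2 : ℝ) *
        ((∏ l ∈ (I.1 ∪ J.1)ᶜ, B l) * (∏ l ∈ I.1 ∩ J.1, ∫⁻ x, A l x) *
          ∏ l ∈ symmDiff I.1 J.1, (∫⁻ x, A l x ^ 2) ^ (1 / 2 : ℝ))

/-- The factor of the direct image in one variable. -/
noncomputable def fac {d : ℕ} (g : RatMap d) (n : ℕ) (a b : Prop) [Decidable a] [Decidable b]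
    (u : ℂ → ℂ) (z : ℂ) : ℂ :=
  ((g.fib n z).roots.map fun x =>
    u x / ((if a then g.der n x else 1) * conj (if b then g.der n x else 1))).sum

/-- The same with absolute values. -/
noncomputable def nfac {d : ℕ} (g : RatMap d) (n : ℕ) (a b : Prop) [Decidable a] [Decidable b]
    (u : ℂ → ℝ≥0∞) (z : ℂ) : ℝ≥0∞ :=
  ((g.fib n z).roots.map fun x =>
    u x / ((if a then ‖g.der n x‖ₑ else 1) * (if b then ‖g.der n x‖ₑ else 1))).sum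

/-- FP: the direct image of a product is a product. -/
def T_FP : Prop := ∀ (k m d : ℕ) (g : Fin k → RatMap d) (n : ℕ) (I J : Idx k m)
  (u : Fin k → ℂ → ℂ) (z : Fin k → ℂ),
    pushCoeff g n I J (fun x => ∏ l, u l (x l)) z =
      ∏ l, fac (g l) n (l ∈ I.1) (l ∈ J.1) (u l) (z l)

/-- FB: bound for the direct image. -/
def T_FB : Prop := ∀ (k m d : ℕ) (g : Fin k → RatMap d) (n : ℕ) (I J : Idx k m)
  (χ : (Fin k → ℂ) → ℂ) (θ : Fin k → ℂ → ℝ≥0∞), (∀ x, ‖χ x‖ₑ ≤ ∏ l, θ l (x l)) →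
  ∀ z : Fin k → ℂ, (∀ l, (l ∈ I.1 ∨ l ∈ J.1) → ∀ x ∈ ((g l).fib n (z l)).roots,
    (g l).der n x ≠ 0) →
    ‖pushCoeff g n I J χ z‖ₑ ≤ ∏ l, nfac (g l) n (l ∈ I.1) (l ∈ J.1) (θ l) (z l)

/-- NUL: the coordinates `z_l`, `l ∈ I ∪ J`, avoid finite sets almost everywhere for `S_IJ`. -/
def T_NUL : Prop := ∀ (k m : ℕ) (S : Current k m) (I J : Idx k m) (l : Fin k) (E : Finset ℂ),
  (l ∈ I.1 ∨ l ∈ J.1) → ∀ᵐ z ∂S.σ, z l ∈ E → S.h z I J = 0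

/-- MEC: the direct image of a continuous function is measurable. -/
def T_MEC : Prop := ∀ (k m d : ℕ), 1 ≤ d → ∀ (g : Fin k → RatMap d) (n : ℕ) (I J : Idx k m)
  (χ : (Fin k → ℂ) → ℂ), Continuous χ → HasCompactSupport χ →
    Measurable fun z => pushCoeff g n I J χ z

/-- The limit of the pairings. -/
noncomputable def limVal {k m : ℕ} (μ : Fin k → Measure ℂ) (S : Current k m) (I J : Idx k m)
    (χ : (Fin k → ℂ) → ℂ) : ℂ :=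
  if I = J then (S.c I : ℂ) * ∫ x, χ x ∂(limMeas μ I) else 0

/-- BD: bound for the pairings. -/
def T_BD : Prop := ∀ (k m d : ℕ), 2 ≤ d → m ≤ k → ∀ (g : Fin k → RatMap d) (R : ℝ), ∃ C : ℝ,
  0 ≤ C ∧ ∀ (S : Current k m) (I J : Idx k m) (n : ℕ) (ε : ℝ) (χ : (Fin k → ℂ) → ℂ), 0 ≤ ε →
    Continuous χ → (∀ x, ‖χ x‖ ≤ ε) → (∀ x, (∃ l, R ≤ ‖x l‖) → χ x = 0) →
    Integrable (fun z => pushCoeff g n I J χ z * S.h z I J) S.σ ∧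
    ‖pairing g n S I J χ‖ ≤ ε * C * Real.sqrt (S.c I * S.c J)

/-- OFF: off-diagonal terms for products. -/
def T_OFF : Prop := ∀ (k m d : ℕ), 2 ≤ d → m ≤ k → ∀ (g : Fin k → RatMap d) (κ : ℝ),
  (∀ l, Good (g l) κ) → ∀ u : Fin k → ℂ → ℂ, (∀ l, ContDiff ℝ 2 (u l)) →
  (∀ l, HasCompactSupport (u l)) → ∃ C : ℝ, 0 ≤ C ∧ ∀ (S : Current k m) (I J : Idx k m) (n : ℕ),
    I ≠ J → ‖pairing g n S I J (fun x => ∏ l, u l (x l))‖ ≤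
      C * Real.sqrt (S.c I * S.c J) * (κ / d) ^ n

/-- DIA: diagonal terms for products. -/
def T_DIA : Prop := ∀ (k m d : ℕ), 2 ≤ d → m ≤ k → ∀ (g : Fin k → RatMap d) (κ : ℝ),
  (∀ l, Good (g l) κ) → ∀ (G : Fin k → ℂ → ℝ) (μ : Fin k → Measure ℂ),
  (∀ l, GreenBd (g l) (G l)) → (∀ l, IsProbabilityMeasure (μ l)) →
  (∀ l, ∀ u : ℂ → ℝ, ContDiff ℝ 2 u → HasCompactSupport u →
      ∫ x, u x ∂(μ l) = (2 * Real.pi)⁻¹ * ∫ x, G l x * (Δ u) x) →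
  ∀ u : Fin k → ℂ → ℂ, (∀ l, ContDiff ℝ 2 (u l)) → (∀ l, HasCompactSupport (u l)) →
  ∃ C : ℝ, 0 ≤ C ∧ ∀ (S : Current k m) (I : Idx k m) (n : ℕ),
    ‖pairing g n S I I (fun x => ∏ l, u l (x l)) -
      (S.c I : ℂ) * ∫ x, ∏ l, u l (x l) ∂(limMeas μ I)‖ ≤ C * S.c I * (κ / d) ^ n

/-- SW: approximation by sums of products. -/
def T_SW : Prop := ∀ (k : ℕ) (χ : (Fin k → ℂ) → ℂ), Continuous χ → HasCompactSupport χ →
  ∃ R : ℝ, (∀ x, (∃ l, R ≤ ‖x l‖) → χ x = 0) ∧ ∀ ε : ℝ, 0 < ε →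
    ∃ (N : ℕ) (c : Fin N → ℂ) (u : Fin N → Fin k → ℂ → ℂ), (∀ a l, ContDiff ℝ 2 (u a l)) ∧
      (∀ a l x, R ≤ ‖x‖ → u a l x = 0) ∧
      ∀ x, ‖χ x - ∑ a, c a * ∏ l, u a l (x l)‖ ≤ ε

/-- The main theorem. -/
def T_MAIN : Prop := ∀ (k m d : ℕ), 2 ≤ d → m ≤ k → ∀ g : Fin k → RatMap d,
  (∀ l, (g l).NoExc) → ∃ μ : Fin k → Measure ℂ, (∀ l, (g l).IsGreenMeasure (μ l)) ∧
    (∀ (S : Current k m) (I J : Idx k m) (χ : (Fin k → ℂ) → ℂ), Continuous χ →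
      HasCompactSupport χ →
        (∀ n, Integrable (fun z => pushCoeff g n I J χ z * S.h z I J) S.σ) ∧
        Tendsto (fun n => pairing g n S I J χ) atTop (𝓝 (limVal μ S I J χ))) ∧
    ∃ r : ℝ, 0 < r ∧ r < 1 ∧ ∀ u : Fin k → ℂ → ℂ, (∀ l, ContDiff ℝ 2 (u l)) →
      (∀ l, HasCompactSupport (u l)) → ∃ C : ℝ, ∀ (S : Current k m) (I J : Idx k m) (n : ℕ),
        ‖pairing g n S I J (fun x => ∏ l, u l (x l)) -
          limVal μ S I J (fun x => ∏ l, u l (x l))‖ ≤ C * Real.sqrt (S.c I * S.c J) * r ^ n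

end Pool.Agent.H83.UE
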