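import Pool.Agent.H83.UE.Targets
import Pool.Agent.H83.UE.Defs2

/-!
# Targets for MP_75a732_an (board uda_modules), second part: Ueda maps of `ℙ^k`, helper83
-/

set_option autoImplicit false

open Polynomial MeasureTheory Filter Topology Set
open scoped OnePoint ComplexConjugate ComplexOrder Laplacian ENNReal Nat

namespace Pool.Agent.H83.UE

/-- The minor of the Jacobian matrix of `ψ : ℂ^m → ℂ^k` with rows in `I`. -/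
noncomputable def rmin {k m : ℕ} (ψ : (Fin m → ℂ) → (Fin k → ℂ)) (I : Idx k m)
    (t : Fin m → ℂ) : ℂ :=
  Matrix.det (Matrix.of fun i j : Fin m => fderiv ℂ ψ t (Pi.single j 1) (I.1.orderEmbOfFin I.2 i))

/-- The points of the fibre of `G^n` over `z`, `G = g × ... × g`. -/
noncomputable def fibre {k d : ℕ} (g : RatMap d) (n : ℕ) (z : Fin k → ℂ) :
    Finset (Fin k → ℂ) := Fintype.piFinset fun l => (g.fib n (z l)).roots.toFinset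

/-- No coordinate of `x` is a pole of the `n`-th iterate. -/
def RegT {k d : ℕ} (g : RatMap d) (n : ℕ) (x : Fin k → ℂ) : Prop :=
  ∀ l, (g.it n).2.eval (x l) ≠ 0

/-- The value of `G^n`. -/
noncomputable def valT {k d : ℕ} (g : RatMap d) (n : ℕ) (x : Fin k → ℂ) : Fin k → ℂ :=
  fun l => g.val n (x l)

/-- The Jacobian determinant of `Φ ∘ x(t)`, `x(t)` the branch of `G^(-n) ∘ ψ` through `x`. -/
noncomputable def bdet {k m d : ℕ} (g : RatMap d) (n : ℕ) (Φ : (Fin k → ℂ) → (Fin m → ℂ))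
    (ψ : (Fin m → ℂ) → (Fin k → ℂ)) (t : Fin m → ℂ) (x : Fin k → ℂ) : ℂ :=
  ∑ I : Idx k m, minor Φ I x * (rmin ψ I t / ∏ i ∈ I.1, g.der n (x i))

/-- CB: the Cauchy-Binet formula. -/
def T_CB : Prop := ∀ (k m : ℕ) (A : Matrix (Fin m) (Fin k) ℂ) (B : Matrix (Fin k) (Fin m) ℂ),
  (A * B).det = ∑ I : Idx k m,
    (Matrix.of fun i j => A i (I.1.orderEmbOfFin I.2 j)).det *
      (Matrix.of fun i j => B (I.1.orderEmbOfFin I.2 i) j).det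

/-- BR: local holomorphic branches of the inverse of the `n`-th iterate. -/
def T_BR : Prop := ∀ (d : ℕ), 1 ≤ d → ∀ (g : RatMap d) (n : ℕ), ∃ E : Finset ℂ,
  ∀ z₀, z₀ ∉ E → ∃ ρ : ℝ, 0 < ρ ∧ ∃ ξ : Fin (d ^ n) → ℂ → ℂ,
    (∀ i, DifferentiableOn ℂ (ξ i) (Metric.ball z₀ ρ)) ∧
    ∀ z ∈ Metric.ball z₀ ρ, z ∉ E ∧ (Function.Injective fun i => ξ i z) ∧
      (g.fib n z).roots = Finset.univ.val.map (fun i => ξ i z) ∧
      ∀ i, (g.it n).2.eval (ξ i z) ≠ 0 ∧ g.der n (ξ i z) ≠ 0 ∧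
        HasDerivAt (ξ i) (g.der n (ξ i z))⁻¹ z

/-- AF: the area formula for `Φ` on the inverse image of a piece. -/
def T_AF : Prop := ∀ (k m d : ℕ), 1 ≤ d → ∀ (g : RatMap d) (n : ℕ) (c : Fin m → ℂ) (r : ℝ)
  (S : Set (Fin m → ℂ)) (ψ : (Fin m → ℂ) → (Fin k → ℂ)) (Φ : (Fin k → ℂ) → (Fin m → ℂ)),
  MeasurableSet S → S ⊆ Metric.ball c r → DifferentiableOn ℂ ψ (Metric.ball c r) →
  InjOn ψ S → Differentiable ℂ Φ → ∃ Z : Set (Fin m → ℂ), MeasurableSet Z ∧ Z ⊆ S ∧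
    volume Z = 0 ∧
    (∀ t ∈ S \ Z, ∀ I : Idx k m, ∀ x ∈ fibre g n (ψ t), ∀ i ∈ I.1,
      g.der n (x i) = 0 → rmin ψ I t = 0) ∧
    ∀ F : (Fin k → ℂ) → ℝ≥0∞, Measurable F →
      (Measurable fun y => ∑' x : {x // RegT g n x ∧ valT g n x ∈ ψ '' (S \ Z) ∧ Φ x = y ∧
        ∃ t ∈ S \ Z, ψ t = valT g n x ∧ bdet g n Φ ψ t x ≠ 0}, F x.1) ∧
      ∫⁻ t in S, ∑ x ∈ fibre g n (ψ t), F x * ENNReal.ofReal (‖bdet g n Φ ψ t x‖ ^ 2) =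
        ∫⁻ y, ∑' x : {x // RegT g n x ∧ valT g n x ∈ ψ '' (S \ Z) ∧ Φ x = y ∧
        ∃ t ∈ S \ Z, ψ t = valT g n x ∧ bdet g n Φ ψ t x ≠ 0}, F x.1 ∧
      volume (Φ '' {x | RegT g n x ∧ ∃ t ∈ S \ Z, ψ t = valT g n x ∧ bdet g n Φ ψ t x = 0}) = 0

/-- NEG: negligible sets. -/
def T_NEG : Prop := ∀ (k m d : ℕ), 1 ≤ d → ∀ (g : RatMap d) (n : ℕ)
  (Φ : (Fin k → ℂ) → (Fin m → ℂ)) (N : Set (Fin k → ℂ)), Differentiable ℂ Φ →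
  Measure.hausdorffMeasure (2 * m : ℝ) N = 0 →
    volume (Φ '' {x | RegT g n x ∧ valT g n x ∈ N}) = 0

/-- NES: images of null sets under the pieces are negligible. -/
def T_NES : Prop := ∀ (k m : ℕ) (c : Fin m → ℂ) (r : ℝ) (Z : Set (Fin m → ℂ))
  (ψ : (Fin m → ℂ) → (Fin k → ℂ)), Z ⊆ Metric.ball c r →
  DifferentiableOn ℂ ψ (Metric.ball c r) → volume Z = 0 →
    Measure.hausdorffMeasure (2 * m : ℝ) (ψ '' Z) = 0

/-- MON: polynomials and their roots. -/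
def T_MON : Prop := ∀ (k : ℕ),
  (∀ w : Fin k → ℂ, (mon w).Monic ∧ (mon w).natDegree = k ∧ Multiset.card (mon w).roots = k) ∧
  (∀ z : Fin k → ℂ, mon (coef z) = ∏ l, (X - C (z l)) ∧
    (mon (coef z)).roots = Finset.univ.val.map z) ∧
  (∀ w : Fin k → ℂ, ∃ z : Fin k → ℂ, coef z = w) ∧
  (∀ w : Fin k → ℂ, {z : Fin k → ℂ | coef z = w}.Finite ∧
    Nat.card {z : Fin k → ℂ // coef z = w} * stab (mon w).roots = k !) ∧
  (∀ z : Fin k → ℂ, ∀ (d : ℕ) (g : RatMap d) (n : ℕ), RegT g n z →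
    Reg g n (coef z) ∧ ueda g n (coef z) = coef (valT g n z)) ∧
  ∀ z : Fin k → ℂ, ∀ (d : ℕ) (g : RatMap d) (n : ℕ), Reg g n (coef z) → RegT g n z

/-- CO1: the sum over `f^(-n)(V)` in terms of root tuples. -/
def T_CO1 : Prop := ∀ (k m d : ℕ) (g : RatMap d) (n : ℕ) (V : Set (Fin k → ℂ))
  (L : (Fin k → ℂ) →ₗ[ℂ] (Fin m → ℂ)) (χ : (Fin k → ℂ) → ℂ) (y : Fin m → ℂ),
  {x : Fin k → ℂ | RegT g n x ∧ coef (valT g n x) ∈ V ∧ L (coef x) = y ∧ χ (coef x) ≠ 0}.Finite →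
    ∑ᶠ w ∈ {w | Reg g n w ∧ ueda g n w ∈ V ∧ L w = y}, udeg g n w * χ w =
      (k ! : ℂ)⁻¹ * ∑ᶠ x ∈ {x : Fin k → ℂ | RegT g n x ∧ coef (valT g n x) ∈ V ∧ L (coef x) = y},
        (stab (Finset.univ.val.map (valT g n x)) : ℂ) *
          (∏ l, ((g.fib n (valT g n x l)).rootMultiplicity (x l) : ℂ)) * χ (coef x)

/-- CO2: the marginals. -/
def T_CO2 : Prop := ∀ (k m : ℕ), m ≤ k → ∀ (V : Set (Fin k → ℂ)) (J : Idx k m)
  (ζ : {j // j ∈ J.1} → ℂ), Function.Injective ζ →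
  {w | w ∈ V ∧ ∀ j, (mon w).IsRoot (ζ j)}.Finite →
    {z : Fin k → ℂ | coef z ∈ V ∧ ∀ j, z j.1 = ζ j}.Finite ∧
    ∑ᶠ z ∈ {z : Fin k → ℂ | coef z ∈ V ∧ ∀ j, z j.1 = ζ j},
      stab (Finset.univ.val.map z) =
      (k - m)! * ∑ᶠ w ∈ {w | w ∈ V ∧ ∀ j, (mon w).IsRoot (ζ j)},
        ∏ j, (mon w).rootMultiplicity (ζ j)

/-- The data of a cycle. -/
def Pieces {k : ℕ} (m : ℕ) (V : Set (Fin k → ℂ)) (c : ℕ → Fin m → ℂ) (r : ℕ → ℝ)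
    (S : ℕ → Set (Fin m → ℂ)) (ψ : ℕ → (Fin m → ℂ) → (Fin k → ℂ)) : Prop :=
  (∀ a, MeasurableSet (S a) ∧ S a ⊆ Metric.ball (c a) (r a) ∧
    DifferentiableOn ℂ (ψ a) (Metric.ball (c a) (r a)) ∧ InjOn (ψ a) (S a) ∧
    ψ a '' S a ⊆ coef ⁻¹' V) ∧
  (Pairwise fun a b => Disjoint (ψ a '' S a) (ψ b '' S b)) ∧
  Measure.hausdorffMeasure (2 * m : ℝ) (coef ⁻¹' V \ ⋃ a, ψ a '' S a) = 0

/-- AC: the area formula for a cycle and a bounded function. -/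
def T_AC : Prop := ∀ (k m d : ℕ), 1 ≤ d → ∀ (g : RatMap d) (n : ℕ) (V : Set (Fin k → ℂ))
  (c : ℕ → Fin m → ℂ) (r : ℕ → ℝ) (S : ℕ → Set (Fin m → ℂ))
  (ψ : ℕ → (Fin m → ℂ) → (Fin k → ℂ)), Pieces m V c r S ψ →
  ∀ (Φ : (Fin k → ℂ) → (Fin m → ℂ)) (K : Set (Fin k → ℂ)) (F : (Fin k → ℂ) → ℂ) (B : ℝ),
    Differentiable ℂ Φ → MeasurableSet K → Measurable F → (∀ x, ‖F x‖ ≤ B) →
    (∀ x, F x ≠ 0 → x ∈ K) →
    ∑' a, ∫⁻ t in S a, ∑ x ∈ fibre g n (ψ a t), K.indicator 1 x *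
      ENNReal.ofReal (‖bdet g n Φ (ψ a) t x‖ ^ 2) ≠ ⊤ →
    (∀ᵐ y : Fin m → ℂ,
      {x | RegT g n x ∧ coef (valT g n x) ∈ V ∧ Φ x = y ∧ x ∈ K}.Finite) ∧
    ∫ y, ∑ᶠ x ∈ {x | RegT g n x ∧ coef (valT g n x) ∈ V ∧ Φ x = y}, F x =
      ∑' a, ∫ t in S a, ∑ x ∈ fibre g n (ψ a t), F x * ((‖bdet g n Φ (ψ a) t x‖ ^ 2 : ℝ) : ℂ)

/-- CY: the current of a cycle on `(ℙ¹)^k`. -/
def T_CY : Prop := ∀ (k m : ℕ), m ≤ k → ∀ (V : Set (Fin k → ℂ)) (δ : ℕ), IsCycle m V δ →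
  ∀ (c : ℕ → Fin m → ℂ) (r : ℕ → ℝ) (S : ℕ → Set (Fin m → ℂ))
    (ψ : ℕ → (Fin m → ℂ) → (Fin k → ℂ)), Pieces m V c r S ψ →
  ∃ T : Current k m, (∀ J, T.c J = (k - m)! * δ) ∧
    (∀ (F : (Fin k → ℂ) → ℝ≥0∞) (I J : Idx k m), Measurable F →
      ∫⁻ z, F z * ‖T.h z I J‖ₑ ∂T.σ = ∑' a, ∫⁻ t in S a, F (ψ a t) *
        stab (Finset.univ.val.map (ψ a t)) * ‖rmin (ψ a) I t‖ₑ * ‖rmin (ψ a) J t‖ₑ) ∧
    ∀ (F : (Fin k → ℂ) → ℂ) (I J : Idx k m), Measurable F →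
      Integrable (fun z => F z * T.h z I J) T.σ →
      ∫ z, F z * T.h z I J ∂T.σ = ∑' a, ∫ t in S a, F (ψ a t) *
        stab (Finset.univ.val.map (ψ a t)) * (rmin (ψ a) I t * conj (rmin (ψ a) J t))

/-- The coefficients of the inverse image of the test form under `coef`. -/
noncomputable def tform {k m : ℕ} (L : (Fin k → ℂ) →ₗ[ℂ] (Fin m → ℂ)) (χ : (Fin k → ℂ) → ℂ)
    (I J : Idx k m) (x : Fin k → ℂ) : ℂ :=
  χ (coef x) * (minor (fun x => L (coef x)) I x * conj (minor (fun x => L (coef x)) J x))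

/-- TF: the inverse image of a test form is a test form. -/
def T_TF : Prop := ∀ (k m : ℕ) (L : (Fin k → ℂ) →ₗ[ℂ] (Fin m → ℂ)) (χ : (Fin k → ℂ) → ℂ)
  (I J : Idx k m), Continuous χ → HasCompactSupport χ →
    Differentiable ℂ (fun x => L (coef x)) ∧ Continuous (tform L χ I J) ∧
      HasCompactSupport (tform L χ I J)

/-- SL: the slices of the inverse images in terms of the current. -/
def T_SL : Prop := ∀ (k m d : ℕ), 1 ≤ d → m ≤ k → ∀ (g : RatMap d) (V : Set (Fin k → ℂ)) (δ : ℕ),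
  IsCycle m V δ → ∃ T : Current k m, (∀ J, T.c J = (k - m)! * δ) ∧
    ∀ (n : ℕ) (L : (Fin k → ℂ) →ₗ[ℂ] (Fin m → ℂ)),
      (∀ χ : (Fin k → ℂ) → ℂ, Continuous χ → HasCompactSupport χ → ∀ I J,
        Integrable (fun z => pushCoeff (fun _ => g) n I J (tform L χ I J) z * T.h z I J) T.σ) →
      ∀ χ : (Fin k → ℂ) → ℂ, Continuous χ → HasCompactSupport χ →
      slice g n V L χ = (k ! : ℂ)⁻¹ * ∑ I : Idx k m, ∑ J : Idx k m,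
        ∫ z, pushCoeff (fun _ => g) n I J (tform L χ I J) z * T.h z I J ∂T.σ

/-- PK: equidistribution for Ueda maps of projective space. -/
def T_PK : Prop := ∀ (k m d : ℕ), 2 ≤ d → m ≤ k → ∀ g : RatMap d, g.NoExc →
  ∃ μ : Measure ℂ, g.IsGreenMeasure μ ∧ ∀ (V : Set (Fin k → ℂ)) (δ : ℕ), IsCycle m V δ →
    ∀ (L : (Fin k → ℂ) →ₗ[ℂ] (Fin m → ℂ)) (χ : (Fin k → ℂ) → ℂ), Continuous χ →
      HasCompactSupport χ →
        Tendsto (fun n => ((d : ℂ) ^ ((k - m) * n))⁻¹ * slice g n V L χ) atTop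
          (𝓝 (δ * greenSlice μ L χ))

end Pool.Agent.H83.UE
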