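import Pool.Agent.H83.UE.Targets2
import Pool.Agent.H83.UE.Defs3

/-!
# Targets for MP_75a732_an (board udb_modules), third part: all Ueda maps, generic sets, helper83
-/

set_option autoImplicit false

open Polynomial MeasureTheory Filter Topology Set
open scoped OnePoint ComplexConjugate ComplexOrder Laplacian ENNReal Nat

namespace Pool.Agent.H83.UE

/-- Homogeneous coordinates of a point of the sphere. -/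
def vec (e : OnePoint ℂ) : ℂ × ℂ := Option.elim e (1, 0) (fun a => (a, 1))

/-- The product of the chordal distances to the points of `E`. -/
noncomputable def omh (E : Finset (OnePoint ℂ)) (v : ℂ × ℂ) : ℝ := ∏ e ∈ E, cd v (vec e)

/-- The same for a point of `ℂ`. -/
noncomputable def om (E : Finset (OnePoint ℂ)) (z : ℂ) : ℝ := omh E (z, 1)

/-! ## Dynamics in one variable -/

/-- EXC: the totally ramified fixed points of the sixth iterate. -/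
def T_EXC : Prop := ∀ (d : ℕ), 2 ≤ d → ∀ g : RatMap d, ∃ E : Finset (OnePoint ℂ),
  (∀ e ∈ E, e ∈ g.Exc) ∧
  (∀ e ∈ E, ∃ c : ℂ, c ≠ 0 ∧ ∀ w, wd (g.F^[6] w) (vec e) = c * wd w (vec e) ^ d ^ 6) ∧
  ∀ z x : ℂ × ℂ, z ≠ 0 → x ≠ 0 → omh E z ≠ 0 → ∀ c : ℂ,
    ¬ ∀ w, wd (g.F^[6] w) z = c * wd w x ^ d ^ 6

/-- LE1: the fibres near a totally ramified fixed point are spread. -/
def T_LE1 : Prop := ∀ (D : ℕ) (A B : ℂ[X]), 2 ≤ D → A.natDegree ≤ D → B.natDegree ≤ D →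
  (∀ w : ℂ × ℂ, w ≠ 0 → (hev D A w, hev D B w) ≠ (0 : ℂ × ℂ)) →
  ∀ (e : OnePoint ℂ) (c : ℂ), c ≠ 0 →
    (∀ w : ℂ × ℂ, wd (hev D A w, hev D B w) (vec e) = c * wd w (vec e) ^ D) →
    ∃ t s : ℝ, 0 < t ∧ 0 < s ∧ ∀ z : ℂ × ℂ, z ≠ 0 → 0 < cd z (vec e) → cd z (vec e) ≤ t →
      ∀ (b : ℂ) (x : Fin D → ℂ × ℂ), (∀ i, x i ≠ 0) →
        (∀ w : ℂ × ℂ, wd (hev D A w, hev D B w) z = b * ∏ i, wd w (x i)) →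
          ∃ i j, s * cd z (vec e) ≤ cd (x i) (x j)

/-- LE2: the other fibres are spread. -/
def T_LE2 : Prop := ∀ (D : ℕ) (A B : ℂ[X]), 1 ≤ D → A.natDegree ≤ D → B.natDegree ≤ D →
  (∀ w : ℂ × ℂ, w ≠ 0 → (hev D A w, hev D B w) ≠ (0 : ℂ × ℂ)) →
  ∀ E : Finset (OnePoint ℂ),
    (∀ z x : ℂ × ℂ, z ≠ 0 → x ≠ 0 → omh E z ≠ 0 → ∀ c : ℂ,
      ¬ ∀ w : ℂ × ℂ, wd (hev D A w, hev D B w) z = c * wd w x ^ D) →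
    ∀ t : ℝ, 0 < t → ∃ s : ℝ, 0 < s ∧ ∀ z : ℂ × ℂ, z ≠ 0 → t ≤ omh E z →
      ∀ (b : ℂ) (x : Fin D → ℂ × ℂ), (∀ i, x i ≠ 0) →
        (∀ w : ℂ × ℂ, wd (hev D A w, hev D B w) z = b * ∏ i, wd w (x i)) →
          ∃ i j, s ≤ cd (x i) (x j)

/-- The weighted Lojasiewicz property with exponent `D - 1`. -/
def LojW (D : ℕ) (H : ℂ × ℂ → ℂ × ℂ) (E : Finset (OnePoint ℂ)) : Prop :=
  ∃ c : ℝ, 0 < c ∧ ∀ z : ℂ × ℂ, z ≠ 0 → omh E z ≠ 0 → ∃ x : Fin D → ℂ × ℂ,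
    (∀ i, x i ≠ 0 ∧ omh E (x i) ≠ 0 ∧ c * omh E z ≤ omh E (x i) ^ D) ∧
    ∀ w : ℂ × ℂ, w ≠ 0 → ∃ i, c * omh E z * cd w (x i) ^ (D - 1) ≤ cd (H w) z

/-- LJE: the weighted Lojasiewicz property. -/
def T_LJE : Prop := ∀ (D : ℕ) (A B : ℂ[X]), 2 ≤ D → A.natDegree ≤ D → B.natDegree ≤ D →
  (∀ w : ℂ × ℂ, w ≠ 0 → (hev D A w, hev D B w) ≠ (0 : ℂ × ℂ)) →
  (∀ z : ℂ × ℂ, z ≠ 0 → ∃ w, wd (hev D A w, hev D B w) z ≠ 0) →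
  ∀ E : Finset (OnePoint ℂ),
    (∀ e ∈ E, ∃ c : ℂ, c ≠ 0 ∧
      ∀ w : ℂ × ℂ, wd (hev D A w, hev D B w) (vec e) = c * wd w (vec e) ^ D) →
    (∀ z x : ℂ × ℂ, z ≠ 0 → x ≠ 0 → omh E z ≠ 0 → ∀ c : ℂ,
      ¬ ∀ w : ℂ × ℂ, wd (hev D A w, hev D B w) z = c * wd w x ^ D) →
    LojW D (fun w => (hev D A w, hev D B w)) E

/-- RCE: the area recursion. -/
def T_RCE : Prop := ∀ (D D₀ : ℕ) (H F₀ : ℂ × ℂ → ℂ × ℂ) (E : Finset (OnePoint ℂ)), 3 ≤ D →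
  1 ≤ D₀ → Continuous H → (∀ w, w ≠ 0 → H w ≠ 0) → Continuous F₀ → (∀ w, w ≠ 0 → F₀ w ≠ 0) →
  LojW D H E → Loj D₀ D₀ F₀ → ∀ R : ℝ, ∃ C : ℝ, 0 ≤ C ∧ ∀ (j : ℕ) (z : ℂ × ℂ), z ≠ 0 →
    omh E z ≠ 0 →
    ∫⁻ x in Metric.ball (0 : ℂ) R, ENNReal.ofReal |Real.log (cd (H^[j] (F₀ (x, 1))) z)| ≤
      ENNReal.ofReal (C * ((j + 1) * ((D - 1 : ℕ) : ℝ) ^ j + |Real.log (omh E z)|))

/-- Slow growth of the logarithmic integrals away from `E`, with `κ < d`. -/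
def GoodE {d : ℕ} (g : RatMap d) (E : Finset (OnePoint ℂ)) (κ : ℝ) : Prop :=
  1 ≤ κ ∧ κ < d ∧ ∀ R : ℝ, ∃ C : ℝ, 0 ≤ C ∧ ∀ (n : ℕ) (z : ℂ × ℂ), z ≠ 0 → omh E z ≠ 0 →
    ∫⁻ x in Metric.ball (0 : ℂ) R, ENNReal.ofReal |Real.log (cd (g.F^[n] (x, 1)) z)| ≤
      ENNReal.ofReal (C * (κ ^ n + |Real.log (omh E z)|))

/-- LGE: every rational map is good for a finite set of exceptional points. -/
def T_LGE : Prop := ∀ (d : ℕ), 2 ≤ d → ∀ g : RatMap d, ∃ (E : Finset (OnePoint ℂ)) (κ : ℝ),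
  (∀ e ∈ E, e ∈ g.Exc) ∧ GoodE g E κ

/-- UNE: convergence of the normalised sums over fibres. -/
def T_UNE : Prop := ∀ (d : ℕ), 2 ≤ d → ∀ (g : RatMap d) (E : Finset (OnePoint ℂ)) (κ : ℝ),
  GoodE g E κ → ∀ G : ℂ → ℝ, GreenBd g G → ∀ ρ : ℂ → ℂ, Dens ρ → ∃ C : ℝ, 0 ≤ C ∧
    ∀ (n : ℕ) (z : ℂ), om E z ≠ 0 →
      ‖((d : ℂ) ^ n)⁻¹ * ((g.fib n z).roots.map (pot ρ)).sum - ∫ w, (G w : ℂ) * ρ w‖ ≤
        C * ((κ / d) ^ n + |Real.log (om E z)| / (d : ℝ) ^ n)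

/-- MUE: the Green measure. -/
def T_MUE : Prop := ∀ (d : ℕ), 2 ≤ d → ∀ (g : RatMap d) (E : Finset (OnePoint ℂ)) (κ : ℝ),
  GoodE g E κ → ∀ G : ℂ → ℝ, GreenBd g G → ∃ μ : Measure ℂ, IsProbabilityMeasure μ ∧
    ∀ u : ℂ → ℝ, ContDiff ℝ 2 u → HasCompactSupport u →
      ∫ x, u x ∂μ = (2 * Real.pi)⁻¹ * ∫ x, G x * (Δ u) x

/-- CUT: cut-off functions near `E` with small energy. -/
def T_CUT : Prop := ∀ E : Finset (OnePoint ℂ), ∃ C : ℝ, 1 ≤ C ∧ ∀ M : ℝ, C ≤ M → ∃ ψ : ℂ → ℝ,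
  ContDiff ℝ 1 ψ ∧ (∀ z, 0 ≤ ψ z ∧ ψ z ≤ 1) ∧ (∀ z, Real.exp (-M) ≤ om E z → ψ z = 1) ∧
    (∀ z, ψ z ≠ 0 → Real.exp (-(C * M)) ≤ om E z) ∧
    ∫⁻ z, ‖fderiv ℝ ψ z‖ₑ ^ 2 ≤ ENNReal.ofReal (C / M)

/-- BBE: the direct image of `χ dz` is small in `L²` away from `E`. -/
def T_BBE : Prop := ∀ (d : ℕ), 2 ≤ d → ∀ (g : RatMap d) (E : Finset (OnePoint ℂ)) (κ : ℝ),
  GoodE g E κ → ∀ χ : ℂ → ℂ, ContDiff ℝ 2 χ → HasCompactSupport χ → ∃ C : ℝ, 0 ≤ C ∧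
    ∀ ε : ℝ, 0 < ε → ε ≤ 1 → ∃ n₀ : ℕ, ∀ n, n₀ ≤ n →
      ∫⁻ z in {z | Real.exp (-(ε * (d : ℝ) ^ n)) ≤ om E z},
        ‖((g.fib n z).roots.map fun x => χ x / g.der n x).sum‖ₑ ^ 2 ≤
          ENNReal.ofReal (C * Real.sqrt ε * (d : ℝ) ^ n)

/-! ## Volumes -/

/-- FCT: lower bound for a polynomial. -/
def T_FCT : Prop := ∀ D : ℕ, ∃ c : ℝ, 0 < c ∧ ∀ q : ℂ[X], q.natDegree ≤ D → ∀ s : ℝ, 0 < s →
  (∃ j, s ≤ ‖q.coeff j‖) → ∃ ζ : Fin D → ℂ × ℂ, (∀ i, ‖ζ i‖ = 1) ∧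
    ∀ y : ℂ, c * s * (max 1 ‖y‖) ^ D * ∏ i, cd (y, 1) (ζ i) ≤ ‖q.eval y‖

/-- VOL: volume of the inverse images of neighbourhoods of a hypersurface. -/
def T_VOL : Prop := ∀ (ι : Type) [Fintype ι] [DecidableEq ι] (d : ℕ), 2 ≤ d →
  ∀ (g : ι → RatMap d) (E : ι → Finset (OnePoint ℂ)) (κ : ℝ), (∀ l, GoodE (g l) (E l) κ) →
  ∀ (B : Finset ι) (h : MvPolynomial ι ℂ), h ≠ 0 → h.vars ⊆ B → ∀ D : ℕ,
  (∀ l, h.degreeOf l ≤ D) → ∀ R : ℝ, ∃ C : ℝ, 0 ≤ C ∧ ∀ c η : ℝ, 0 < c → 0 < η →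
    ∃ n₀ : ℕ, ∀ n, n₀ ≤ n →
      volume {x : ι → ℂ | (∀ l, ‖x l‖ < R) ∧
        (∀ l ∈ B, Real.exp (-(η * (c * (d : ℝ) ^ n))) ≤ om (E l) ((g l).val n (x l))) ∧
        ‖MvPolynomial.eval (fun l => (g l).val n (x l)) h‖ ≤
          Real.exp (-(c * (d : ℝ) ^ n)) * ∏ l ∈ B, (max 1 ‖(g l).val n (x l)‖) ^ D} ≤
        ENNReal.ofReal (C * η)

/-- KMG: marginals and change of variables. -/
def T_KMG : Prop := ∀ (k m d : ℕ), 2 ≤ d → ∀ (g : Fin k → RatMap d) (S : Current k m)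
  (I : Idx k m) (n : ℕ) (ρ : Fin k → ℂ → ℝ≥0∞) (F : (Fin k → ℂ) → ℝ≥0∞),
  (∀ l, Measurable (ρ l)) → Measurable F → (∀ z z', (∀ l ∈ I.1, z l = z' l) → F z = F z') →
    ∫⁻ z, (∏ l ∈ I.1, nfac (g l) n True True (ρ l) (z l)) * F z *
        ENNReal.ofReal (S.h z I I).re ∂S.σ =
      S.c I * ∫⁻ x : {j // j ∈ I.1} → ℂ, (∏ l, ρ l.1 (x l)) *
        F (fun l => if h : l ∈ I.1 then (g l).val n (x ⟨l, h⟩) else 0)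

/-- Quantitative genericity. -/
def Tame {k m : ℕ} (E : Fin k → Finset (OnePoint ℂ)) (S : Current k m) : Prop :=
  ∀ (A : Finset (Fin k)) (I : Idx k m), ¬ A ⊆ I.1 →
    ∃ (h : MvPolynomial (Fin k) ℂ) (D N : ℕ) (C : ℝ), h ≠ 0 ∧ h.vars ⊆ I.1 \ A ∧
      (∀ l, h.degreeOf l ≤ D) ∧ 0 < N ∧ ∀ᵐ z ∂S.σ, S.h z I I ≠ 0 → ∀ t : ℝ, 0 ≤ t →
        (∀ l ∈ A, om (E l) (z l) ≤ t) →
          ‖MvPolynomial.eval z h‖ ^ N ≤ C * (∏ l ∈ I.1 \ A, (max 1 ‖z l‖) ^ D) ^ N * t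

/-- The coordinates in `A` are `exp (-a)`-near to `E`, the others are not `exp (-b)`-near. -/
def Zone {k : ℕ} (E : Fin k → Finset (OnePoint ℂ)) (A : Finset (Fin k)) (a b : ℝ) :
    Set (Fin k → ℂ) :=
  {z | (∀ l ∈ A, om (E l) (z l) ≤ Real.exp (-a)) ∧
    ∀ l, l ∉ A → Real.exp (-b) ≤ om (E l) (z l)}

/-- KEY: the zones with `A ⊄ I` are negligible. -/
def T_KEY : Prop := ∀ (k m d : ℕ), 2 ≤ d → ∀ (g : Fin k → RatMap d)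
  (E : Fin k → Finset (OnePoint ℂ)) (κ : ℝ), (∀ l, GoodE (g l) (E l) κ) →
  ∀ S : Current k m, Tame E S → ∀ (A : Finset (Fin k)) (I : Idx k m), ¬ A ⊆ I.1 →
  ∀ R K : ℝ, ∃ C : ℝ, 0 ≤ C ∧ ∀ c η : ℝ, 0 < c → 0 < η → ∃ n₀ : ℕ, ∀ n, n₀ ≤ n →
    ∀ ρ : Fin k → ℂ → ℝ≥0∞, (∀ l, Measurable (ρ l)) → (∀ l x, ρ l x ≤ ENNReal.ofReal K) →
      (∀ l x, R ≤ ‖x‖ → ρ l x = 0) →
      ∫⁻ z in Zone E A (c * (d : ℝ) ^ n) (η * (c * (d : ℝ) ^ n)),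
        (∏ l ∈ I.1, nfac (g l) n True True (ρ l) (z l)) *
          ENNReal.ofReal (S.h z I I).re ∂S.σ ≤ ENNReal.ofReal (C * η)

/-- PIG: the zones cover. -/
def T_PIG : Prop := ∀ (k : ℕ) (E : Fin k → Finset (OnePoint ℂ)) (T ε η : ℝ), 0 < T → 0 < ε →
  0 < η → η < 1 → ∀ z : Fin k → ℂ, ∃ j : ℕ, j ≤ k ∧ ∃ A : Finset (Fin k),
    z ∈ Zone E A (ε * η ^ j * T) (η * (ε * η ^ j * T))

/-- CSG: the Cauchy-Schwarz inequality on a region. -/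
def T_CSG : Prop := ∀ (k m : ℕ) (S : Current k m) (I J : Idx k m) (A : Fin k → ℂ → ℝ≥0∞)
  (B : Fin k → ℝ≥0∞) (Ω : Set (Fin k → ℂ)), (∀ l, Measurable (A l)) →
  (∀ l x, l ∉ I.1 → l ∉ J.1 → A l x ≤ B l) → MeasurableSet Ω →
    ∫⁻ z in Ω, (∏ l, A l (z l)) * ‖S.h z I J‖ₑ ∂S.σ ≤
      (∏ l ∈ (I.1 ∪ J.1)ᶜ, B l) *
      (∫⁻ z in Ω, ((∏ l ∈ I.1 ∩ J.1, A l (z l)) * ∏ l ∈ I.1 \ J.1, A l (z l) ^ 2) *
        ENNReal.ofReal (S.h z I I).re ∂S.σ) ^ (1 / 2 : ℝ) *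
      (∫⁻ z in Ω, ((∏ l ∈ I.1 ∩ J.1, A l (z l)) * ∏ l ∈ J.1 \ I.1, A l (z l) ^ 2) *
        ENNReal.ofReal (S.h z J J).re ∂S.σ) ^ (1 / 2 : ℝ)

/-! ## Convergence -/

/-- The data of the products. -/
def Data {k d : ℕ} (g : Fin k → RatMap d) (E : Fin k → Finset (OnePoint ℂ)) (κ : ℝ)
    (G : Fin k → ℂ → ℝ) (μ : Fin k → Measure ℂ) : Prop :=
  (∀ l, GoodE (g l) (E l) κ) ∧ (∀ l, GreenBd (g l) (G l)) ∧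
  (∀ l, IsProbabilityMeasure (μ l)) ∧ ∀ l, ∀ u : ℂ → ℝ, ContDiff ℝ 2 u → HasCompactSupport u →
    ∫ x, u x ∂(μ l) = (2 * Real.pi)⁻¹ * ∫ x, G l x * (Δ u) x

/-- DIE: diagonal terms for products. -/
def T_DIE : Prop := ∀ (k m d : ℕ), 2 ≤ d → m ≤ k → ∀ (g : Fin k → RatMap d)
  (E : Fin k → Finset (OnePoint ℂ)) (κ : ℝ) (G : Fin k → ℂ → ℝ) (μ : Fin k → Measure ℂ),
  Data g E κ G μ → ∀ u : Fin k → ℂ → ℂ, (∀ l, ContDiff ℝ 2 (u l)) →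
  (∀ l, HasCompactSupport (u l)) → ∀ S : Current k m, Tame E S → ∀ I : Idx k m,
    Tendsto (fun n => pairing g n S I I (fun x => ∏ l, u l (x l))) atTop
      (𝓝 ((S.c I : ℂ) * ∫ x, ∏ l, u l (x l) ∂(limMeas μ I)))

/-- OFE: off-diagonal terms for products. -/
def T_OFE : Prop := ∀ (k m d : ℕ), 2 ≤ d → m ≤ k → ∀ (g : Fin k → RatMap d)
  (E : Fin k → Finset (OnePoint ℂ)) (κ : ℝ), (∀ l, GoodE (g l) (E l) κ) →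
  ∀ u : Fin k → ℂ → ℂ, (∀ l, ContDiff ℝ 2 (u l)) → (∀ l, HasCompactSupport (u l)) →
  ∀ S : Current k m, Tame E S → ∀ I J : Idx k m, I ≠ J →
    Tendsto (fun n => pairing g n S I J (fun x => ∏ l, u l (x l))) atTop (𝓝 0)

/-- MNE: the limits of the pairings. -/
def T_MNE : Prop := ∀ (k m d : ℕ), 2 ≤ d → m ≤ k → ∀ (g : Fin k → RatMap d)
  (E : Fin k → Finset (OnePoint ℂ)) (κ : ℝ) (G : Fin k → ℂ → ℝ) (μ : Fin k → Measure ℂ),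
  Data g E κ G μ → ∀ S : Current k m, Tame E S → ∀ (I J : Idx k m) (χ : (Fin k → ℂ) → ℂ),
    Continuous χ → HasCompactSupport χ →
      Tendsto (fun n => pairing g n S I J χ) atTop (𝓝 (limVal μ S I J χ))

/-! ## Algebra -/

/-- LIN: linear subspaces. -/
def T_LIN : Prop :=
  (∀ (n : ℕ) (W : Submodule ℂ (Fin n → ℂ)),
    ∃ L : Fin (n - Module.finrank ℂ W) → MvPolynomial (Fin n) ℂ, (∀ i, (L i).IsHomogeneous 1) ∧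
      ∀ a : Fin n → ℂ, a ∈ W ↔ ∀ i, MvPolynomial.eval a (L i) = 0) ∧
  ∀ (k j : ℕ) (e : Fin j → OnePoint ℂ), ∃ W : Submodule ℂ (Fin (k + 1) → ℂ),
    ∀ a, a ∈ W ↔ Van e a

/-- HFB: bound for the Hilbert function. -/
def T_HFB : Prop := ∀ (n r : ℕ), 1 ≤ r → ∀ 𝓖 : Set (MvPolynomial (Fin n) ℂ),
  (∀ F ∈ 𝓖, ∃ N, F.IsHomogeneous N) → ∀ L : Fin r → MvPolynomial (Fin n) ℂ,
  (∀ i, (L i).IsHomogeneous 1) →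
  (∀ a : Fin n → ℂ, (∀ F ∈ 𝓖, MvPolynomial.eval a F = 0) →
    (∀ i, MvPolynomial.eval a (L i) = 0) → a = 0) →
  ∃ C : ℕ, ∀ t : ℕ, ∃ N : ℕ, N ≤ C * (t + 1) ^ (r - 1) ∧
    ∃ b : Fin N → MvPolynomial (Fin n) ℂ, ∀ p : MvPolynomial (Fin n) ℂ, p.IsHomogeneous t →
      ∃ c : Fin N → ℂ, ∀ a : Fin n → ℂ, (∀ F ∈ 𝓖, MvPolynomial.eval a F = 0) →
        MvPolynomial.eval a p = ∑ i, c i * MvPolynomial.eval a (b i)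

/-- RDN: reduction of the powers of a root. -/
def T_RDN : Prop := ∀ (k k' : ℕ), 1 ≤ k' → k' ≤ k → ∀ s : ℕ,
  ∃ q : Fin k' → MvPolynomial (Fin (k + 1)) ℂ, (∀ i, (q i).IsHomogeneous s) ∧
    ∀ a : Fin (k + 1) → ℂ, (∀ i : Fin (k + 1), k' < (i : ℕ) → a i = 0) → ∀ ζ : ℂ,
      (pol a).eval ζ = 0 → ((pol a).coeff k' * ζ) ^ s =
        ∑ i, MvPolynomial.eval a (q i) * ζ ^ (i : ℕ)

/-- ELI: elimination. -/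
def T_ELI : Prop := ∀ (k r : ℕ) (𝓖 : Set (MvPolynomial (Fin (k + 1)) ℂ)),
  (∀ F ∈ 𝓖, ∃ N, F.IsHomogeneous N) → ∀ L : Fin r → MvPolynomial (Fin (k + 1)) ℂ,
  (∀ i, (L i).IsHomogeneous 1) →
  (∀ a : Fin (k + 1) → ℂ, (∀ F ∈ 𝓖, MvPolynomial.eval a F = 0) →
    (∀ i, MvPolynomial.eval a (L i) = 0) → a = 0) →
  ∀ B : Finset (Fin k), r ≤ B.card → ∃ h : MvPolynomial (Fin k) ℂ, h ≠ 0 ∧ h.vars ⊆ B ∧
    ∀ a : Fin (k + 1) → ℂ, a ≠ 0 → (∀ F ∈ 𝓖, MvPolynomial.eval a F = 0) →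
      ∀ ζ : Fin k → ℂ, (∀ l ∈ B, (pol a).eval (ζ l) = 0) → MvPolynomial.eval ζ h = 0

/-- The coefficients of the product of the linear forms vanishing at `v_1, ..., v_k`. -/
noncomputable def hcoef {k : ℕ} (v : Fin k → ℂ × ℂ) (i : Fin (k + 1)) : ℂ :=
  (∏ l, (C (v l).2 * X - C (v l).1)).coeff i

/-- LJN: the Lojasiewicz inequality from the Nullstellensatz. -/
def T_LJN : Prop := ∀ (k : ℕ) (𝓕 : Set (MvPolynomial (Fin (k + 1)) ℂ)),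
  (∀ F ∈ 𝓕, ∃ N, F.IsHomogeneous N) → ∀ (A B : Finset (Fin k)) (ε : Fin k → OnePoint ℂ)
  (h : MvPolynomial (Fin k) ℂ), h.vars ⊆ B →
  (∀ v : Fin k → ℂ × ℂ, (∀ l, v l ≠ 0) → (∀ F ∈ 𝓕, MvPolynomial.eval (hcoef v) F = 0) →
    (∀ l ∈ A, wd (v l) (vec (ε l)) = 0) → (∀ l ∈ B, (v l).2 ≠ 0) →
      MvPolynomial.eval (fun l => (v l).1 / (v l).2) h = 0) →
  ∃ (D N : ℕ) (C : ℝ), 0 < N ∧ (∀ l, h.degreeOf l ≤ D) ∧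
    ∀ z : Fin k → ℂ, coef z ∈ chart 𝓕 → ∀ t : ℝ, 0 ≤ t →
      (∀ l ∈ A, cd (z l, 1) (vec (ε l)) ≤ t) →
        ‖MvPolynomial.eval z h‖ ^ N ≤ C * (∏ l ∈ B, (max 1 ‖z l‖) ^ D) ^ N * t

/-- TAM: currents of generic algebraic sets are tame. -/
def T_TAM : Prop := ∀ (k m d : ℕ), m ≤ k → ∀ (g : RatMap d) (E : Finset (OnePoint ℂ)),
  (∀ e ∈ E, e ∈ g.Exc) → ∀ 𝓕 : Set (MvPolynomial (Fin (k + 1)) ℂ),
  (∀ F ∈ 𝓕, ∃ N, F.IsHomogeneous N) → Generic g m 𝓕 → ∀ S : Current k m,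
  (∀ I J : Idx k m, ∀ᵐ z ∂S.σ, coef z ∉ chart 𝓕 → S.h z I J = 0) → Tame (fun _ => E) S

/-- SLE: as `T_SL`, with the support of the current. -/
def T_SLE : Prop := ∀ (k m d : ℕ), 1 ≤ d → m ≤ k → ∀ (g : RatMap d) (V : Set (Fin k → ℂ)) (δ : ℕ),
  MeasurableSet V → IsCycle m V δ → ∃ T : Current k m, (∀ J, T.c J = (k - m)! * δ) ∧
    (∀ I J : Idx k m, ∀ᵐ z ∂T.σ, coef z ∉ V → T.h z I J = 0) ∧
    ∀ (n : ℕ) (L : (Fin k → ℂ) →ₗ[ℂ] (Fin m → ℂ)),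
      (∀ χ : (Fin k → ℂ) → ℂ, Continuous χ → HasCompactSupport χ → ∀ I J,
        Integrable (fun z => pushCoeff (fun _ => g) n I J (tform L χ I J) z * T.h z I J) T.σ) →
      ∀ χ : (Fin k → ℂ) → ℂ, Continuous χ → HasCompactSupport χ →
      slice g n V L χ = (k ! : ℂ)⁻¹ * ∑ I : Idx k m, ∑ J : Idx k m,
        ∫ z, pushCoeff (fun _ => g) n I J (tform L χ I J) z * T.h z I J ∂T.σ

/-- PKE: equidistribution for all Ueda maps of projective space and generic algebraic sets. -/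
def T_PKE : Prop := ∀ (k m d : ℕ), 2 ≤ d → m ≤ k → ∀ g : RatMap d,
  ∃ μ : Measure ℂ, g.IsGreenMeasure μ ∧
    ∀ (𝓕 : Set (MvPolynomial (Fin (k + 1)) ℂ)) (δ : ℕ), (∀ F ∈ 𝓕, ∃ N, F.IsHomogeneous N) →
      IsCycle m (chart 𝓕) δ → Generic g m 𝓕 →
      ∀ (L : (Fin k → ℂ) →ₗ[ℂ] (Fin m → ℂ)) (χ : (Fin k → ℂ) → ℂ), Continuous χ →
        HasCompactSupport χ →
          Tendsto (fun n => ((d : ℂ) ^ ((k - m) * n))⁻¹ * slice g n (chart 𝓕) L χ) atTop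
            (𝓝 (δ * greenSlice μ L χ))

end Pool.Agent.H83.UE
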