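import Pool.Agent.H83.UE.Targets3
import Pool.Agent.H83.UE.Defs4

/-!
# Targets for MP_75a732_an (board udb_modules), fourth part: algebraic sets are cycles, helper83
-/

set_option autoImplicit false

open Polynomial MeasureTheory Filter Topology Set
open scoped OnePoint ComplexConjugate ComplexOrder Laplacian ENNReal Nat

namespace Pool.Agent.H83.UE

/-- DMB: dependent coordinates on the inverse image of an algebraic set of dimension `≤ m`. -/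
def T_DMB : Prop := ∀ (k m : ℕ), m ≤ k → ∀ 𝓕 : Set (MvPolynomial (Fin (k + 1)) ℂ),
  (∀ F ∈ 𝓕, ∃ N, F.IsHomogeneous N) →
  (∃ Λ : Submodule ℂ (Fin (k + 1) → ℂ), Module.finrank ℂ Λ = k - m ∧
    ∀ a ∈ Λ, (∀ F ∈ 𝓕, MvPolynomial.eval a F = 0) → a = 0) →
  ∀ B : Finset (Fin k), B.card = m + 1 → ∃ h : MvPolynomial (Fin k) ℂ, h ≠ 0 ∧ h.vars ⊆ B ∧
    ∀ z : Fin k → ℂ, coef z ∈ chart 𝓕 → MvPolynomial.eval z h = 0

/-- PRA: structure of a prime ideal. -/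
def T_PRA : Prop := ∀ (k : ℕ) (P : Ideal (MvPolynomial (Fin k) ℂ)), P.IsPrime →
  ∃ (B : Finset (Fin k)) (G : Fin k → MvPolynomial (Fin k) ℂ),
    (∀ h : MvPolynomial (Fin k) ℂ, h.vars ⊆ B → h ∈ P → h = 0) ∧
    ∀ j, j ∉ B → G j ∈ P ∧ (G j).vars ⊆ insert j B ∧ MvPolynomial.pderiv j (G j) ∉ P

/-- PRB: graphs. -/
def T_PRB : Prop := ∀ (k : ℕ) (B : Finset (Fin k)) (G : Fin k → MvPolynomial (Fin k) ℂ),
  (∀ j, j ∉ B → (G j).vars ⊆ insert j B) →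
  ∃ (c : ℕ → Fin B.card → ℂ) (r : ℕ → ℝ) (ψ : ℕ → (Fin B.card → ℂ) → (Fin k → ℂ)),
    (∀ a, DifferentiableOn ℂ (ψ a) (Metric.ball (c a) (r a)) ∧
      InjOn (ψ a) (Metric.ball (c a) (r a))) ∧
    {z : Fin k → ℂ | ∀ j, j ∉ B → MvPolynomial.eval z (G j) = 0 ∧
      MvPolynomial.eval z (MvPolynomial.pderiv j (G j)) ≠ 0} ⊆
      ⋃ a, ψ a '' Metric.ball (c a) (r a)

/-- `X` is covered by countably many injective holomorphic images of balls of dimension `≤ m`. -/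
def Covered {k : ℕ} (m : ℕ) (X : Set (Fin k → ℂ)) : Prop :=
  ∃ (n : ℕ → ℕ) (c : ∀ a, Fin (n a) → ℂ) (r : ℕ → ℝ)
    (ψ : ∀ a, (Fin (n a) → ℂ) → (Fin k → ℂ)),
    (∀ a, n a ≤ m ∧ DifferentiableOn ℂ (ψ a) (Metric.ball (c a) (r a)) ∧
      InjOn (ψ a) (Metric.ball (c a) (r a))) ∧
    X ⊆ ⋃ a, ψ a '' Metric.ball (c a) (r a)

/-- PRC: covering of an algebraic set. -/
def T_PRC : Prop := ∀ (k m : ℕ) (I : Ideal (MvPolynomial (Fin k) ℂ)),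
  (∀ B : Finset (Fin k), B.card = m + 1 → ∃ h ∈ I, h ≠ 0 ∧ h.vars ⊆ B) →
    Covered m {z : Fin k → ℂ | ∀ F ∈ I, MvPolynomial.eval z F = 0}

/-- PRD: the pieces. -/
def T_PRD : Prop := ∀ (k m : ℕ) (X : Set (Fin k → ℂ)), IsClosed X → Covered m X →
  ∃ (c : ℕ → Fin m → ℂ) (r : ℕ → ℝ) (S : ℕ → Set (Fin m → ℂ))
    (ψ : ℕ → (Fin m → ℂ) → (Fin k → ℂ)),
    (∀ a, MeasurableSet (S a) ∧ S a ⊆ Metric.ball (c a) (r a) ∧
      DifferentiableOn ℂ (ψ a) (Metric.ball (c a) (r a)) ∧ InjOn (ψ a) (S a) ∧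
      ψ a '' S a ⊆ X) ∧
    (Pairwise fun a b => Disjoint (ψ a '' S a) (ψ b '' S b)) ∧
    Measure.hausdorffMeasure (2 * m : ℝ) (X \ ⋃ a, ψ a '' S a) = 0

/-- GNR: almost all points are generic over a countable field. -/
def T_GNR : Prop := ∀ (ι : Type) [Fintype ι] (K : Subfield ℂ), (K : Set ℂ).Countable →
  ∀ᵐ ζ : ι → ℂ, ∀ h : MvPolynomial ι K, h ≠ 0 → MvPolynomial.aeval ζ h ≠ 0

/-- CNT: counting the points over a generic point. -/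
def T_CNT : Prop := ∀ (k : ℕ) (K : Subfield ℂ) (I : Ideal (MvPolynomial (Fin k) K))
  (J : Finset (Fin k)),
  (∀ i : Fin k, i ∉ J → ∃ h ∈ I, h ≠ 0 ∧ h.vars ⊆ insert i J) →
  ∀ w : Setoid (Fin k) → ℕ, ∃ c : ℕ, ∀ ζ : {j // j ∈ J} → ℂ,
    (∀ h : MvPolynomial {j // j ∈ J} K, h ≠ 0 → MvPolynomial.aeval ζ h ≠ 0) →
      {z : Fin k → ℂ | (∀ F ∈ I, MvPolynomial.aeval z F = 0) ∧ ∀ j, z j.1 = ζ j}.Finite ∧
      ∑ᶠ z ∈ {z : Fin k → ℂ | (∀ F ∈ I, MvPolynomial.aeval z F = 0) ∧ ∀ j, z j.1 = ζ j},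
        w (Setoid.ker z) = c

/-- DEG: the number of points over almost all points. -/
def T_DEG : Prop := ∀ (k m : ℕ) (I : Ideal (MvPolynomial (Fin k) ℂ)),
  (∀ B : Finset (Fin k), B.card = m + 1 → ∃ h ∈ I, h ≠ 0 ∧ h.vars ⊆ B) →
  ∀ J : Finset (Fin k), J.card = m → ∀ w : Setoid (Fin k) → ℕ, ∃ c : ℕ,
    ∀ᵐ ζ : {j // j ∈ J} → ℂ,
      {z : Fin k → ℂ | (∀ F ∈ I, MvPolynomial.eval z F = 0) ∧ ∀ j, z j.1 = ζ j}.Finite ∧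
      ∑ᶠ z ∈ {z : Fin k → ℂ | (∀ F ∈ I, MvPolynomial.eval z F = 0) ∧ ∀ j, z j.1 = ζ j},
        w (Setoid.ker z) = c

/-- ALG: algebraic sets are cycles. -/
def T_ALG : Prop := ∀ (k m : ℕ), m ≤ k → ∀ 𝓕 : Set (MvPolynomial (Fin (k + 1)) ℂ),
  (∀ F ∈ 𝓕, ∃ N, F.IsHomogeneous N) →
  (∃ Λ : Submodule ℂ (Fin (k + 1) → ℂ), Module.finrank ℂ Λ = k - m ∧
    ∀ a ∈ Λ, (∀ F ∈ 𝓕, MvPolynomial.eval a F = 0) → a = 0) →
  ∃ δ : ℕ, IsCycle m (chart 𝓕) δ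

/-- PKF: equidistribution for all Ueda maps and generic algebraic sets, literal form. -/
def T_PKF : Prop := ∀ (k m d : ℕ), 2 ≤ d → m ≤ k → ∀ g : RatMap d,
  ∃ μ : Measure ℂ, g.IsGreenMeasure μ ∧
    ∀ 𝓕 : Set (MvPolynomial (Fin (k + 1)) ℂ), (∀ F ∈ 𝓕, ∃ N, F.IsHomogeneous N) →
      GenericSet g m 𝓕 → ∃ δ : ℕ,
        (∀ᵐ ζ : Fin m → ℂ, {w | w ∈ chart 𝓕 ∧ ∀ j, (mon w).IsRoot (ζ j)}.Finite ∧
          ∑ᶠ w ∈ {w | w ∈ chart 𝓕 ∧ ∀ j, (mon w).IsRoot (ζ j)},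
            ∏ j, (mon w).rootMultiplicity (ζ j) = δ) ∧
        ∀ (L : (Fin k → ℂ) →ₗ[ℂ] (Fin m → ℂ)) (χ : (Fin k → ℂ) → ℂ), Continuous χ →
          HasCompactSupport χ →
            Tendsto (fun n => ((d : ℂ) ^ ((k - m) * n))⁻¹ * slice g n (chart 𝓕) L χ) atTop
              (𝓝 (δ * greenSlice μ L χ))

end Pool.Agent.H83.UE
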